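import Mathlib

/-!
# The system `5^4 x₁ + 3^6 y₁ = w₁ z₁^12`, `(5^4 - 3^6) x₂ + 3^6 y₂ = w₂ z₂^12` is not
partition regular over the nonzero integers

Colour a nonzero integer `5^v u` (with `5 ∤ u`) by the pair `(v mod 12, u mod 5)`.  In the first
equation the two terms on the left have valuations that differ mod 12, the right side has
valuation `≡ v`, so the term `3^6 y₁` dominates, and comparing last nonzero digits in base 5 gives
`3^6 u ≡ u · u^12 = u (mod 5)`, which is false as `3^6 ≡ 4`.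
-/

namespace Pool.Agent.Results.MP_900fba_co.NotRegular

/-- The type of nonzero integers. -/
abbrev NZ : Type := {n : ℤ // n ≠ 0}

/-- The system is partition regular over the nonzero integers: for every finite colouring there is
a solution of both equations with all eight variables of one colour. -/
def SystemPartitionRegular : Prop :=
  ∀ (r : ℕ) (c : NZ → Fin r), ∃ x₁ y₁ w₁ z₁ x₂ y₂ w₂ z₂ : NZ,
    (c y₁ = c x₁ ∧ c w₁ = c x₁ ∧ c z₁ = c x₁ ∧ c x₂ = c x₁ ∧ c y₂ = c x₁ ∧ c w₂ = c x₁ ∧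
      c z₂ = c x₁) ∧
    (5 : ℤ) ^ 4 * x₁.1 + 3 ^ 6 * y₁.1 = w₁.1 * z₁.1 ^ 12 ∧
    ((5 : ℤ) ^ 4 - 3 ^ 6) * x₂.1 + 3 ^ 6 * y₂.1 = w₂.1 * z₂.1 ^ 12

lemma exists_decomp (n : NZ) : ∃ v : ℕ, ∃ u : ℤ, n.1 = 5 ^ v * u ∧ ¬ (5 : ℤ) ∣ u := by
  have hfin : FiniteMultiplicity (5 : ℤ) n.1 := by
    rw [Int.finiteMultiplicity_iff]
    exact ⟨by norm_num, n.2⟩
  obtain ⟨u, hu, hnd⟩ := hfin.exists_eq_pow_mul_and_not_dvd
  exact ⟨_, u, hu, hnd⟩

/-- The 5-adic valuation. -/
noncomputable def val (n : NZ) : ℕ := (exists_decomp n).choose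

/-- The part prime to 5. -/
noncomputable def unit (n : NZ) : ℤ := (exists_decomp n).choose_spec.choose

lemma eq_val_unit (n : NZ) : n.1 = 5 ^ val n * unit n :=
  (exists_decomp n).choose_spec.choose_spec.1

lemma not_dvd_unit (n : NZ) : ¬ (5 : ℤ) ∣ unit n :=
  (exists_decomp n).choose_spec.choose_spec.2

lemma unique_aux {m n : ℕ} {A B : ℤ} (h : (5 : ℤ) ^ m * A = 5 ^ n * B) (hA : ¬ (5 : ℤ) ∣ A)
    (hB : ¬ (5 : ℤ) ∣ B) : m = n ∧ A = B := by
  have key : ∀ {m n : ℕ} {A B : ℤ}, (5 : ℤ) ^ m * A = 5 ^ n * B → ¬ (5 : ℤ) ∣ A → m ≤ n →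
      m = n ∧ A = B := by
    intro m n A B h hA hmn
    obtain ⟨k, rfl⟩ := Nat.exists_eq_add_of_le hmn
    have h5 : (5 : ℤ) ^ m ≠ 0 := by positivity
    have hAB : A = 5 ^ k * B := by
      apply mul_left_cancel₀ h5
      rw [h, pow_add]; ring
    rcases Nat.eq_zero_or_pos k with hk | hk
    · subst hk
      exact ⟨rfl, by simpa using hAB⟩
    · exact absurd ⟨5 ^ (k - 1) * B, by
        rw [hAB]
        obtain ⟨j, rfl⟩ : ∃ j, k = j + 1 := ⟨k - 1, by omega⟩
        simp [pow_succ]; ring⟩ hA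
  rcases le_total m n with hmn | hmn
  · exact key h hA hmn
  · obtain ⟨h1, h2⟩ := key h.symm hB hmn
    exact ⟨h1.symm, h2.symm⟩

/-- The colouring: valuation mod 12 and last nonzero digit in base 5. -/
noncomputable def col (n : NZ) : ZMod 12 × ZMod 5 := ((val n : ZMod 12), (unit n : ZMod 5))

lemma pow_twelve (u : ZMod 5) (hu : u ≠ 0) : u ^ 12 = 1 := by
  revert u; decide

lemma no_sol (x y w z : NZ) (h1 : col y = col x) (h2 : col w = col x) (h3 : col z = col x) :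
    (5 : ℤ) ^ 4 * x.1 + 3 ^ 6 * y.1 ≠ w.1 * z.1 ^ 12 := by
  intro heq
  simp only [col, Prod.mk.injEq] at h1 h2 h3
  obtain ⟨h1v, h1u⟩ := h1
  obtain ⟨h2v, h2u⟩ := h2
  obtain ⟨h3v, h3u⟩ := h3
  rw [eq_val_unit x, eq_val_unit y, eq_val_unit w, eq_val_unit z] at heq
  have hx := not_dvd_unit x
  have hy := not_dvd_unit y
  have hw := not_dvd_unit w
  have hz := not_dvd_unit z
  set a := val x
  set b := val y
  set d := val w
  set e := val z
  set p := unit x
  set q := unit y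
  set r := unit w
  set s := unit z
  have hprime : Prime (5 : ℤ) := by norm_num
  have hR : ¬ (5 : ℤ) ∣ r * s ^ 12 := by
    intro h
    rcases hprime.dvd_or_dvd h with h | h
    · exact hw h
    · exact hz (hprime.dvd_of_dvd_pow h)
  have hRHS : (5 : ℤ) ^ d * r * (5 ^ e * s) ^ 12 = 5 ^ (d + 12 * e) * (r * s ^ 12) := by
    rw [mul_pow, ← pow_mul, pow_add]; ring
  have h12 : ((12 : ℕ) : ZMod 12) = 0 := ZMod.natCast_self 12
  rcases lt_trichotomy b (a + 4) with hlt | heq' | hgt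
  · obtain ⟨k, hk⟩ : ∃ k, a + 4 = b + (k + 1) := ⟨a + 4 - b - 1, by omega⟩
    have hL : (5 : ℤ) ^ 4 * (5 ^ a * p) + 3 ^ 6 * (5 ^ b * q) =
        5 ^ b * (5 * (5 ^ k * p) + 729 * q) := by
      have : (5 : ℤ) ^ 4 * (5 ^ a * p) = 5 ^ (a + 4) * p := by rw [pow_add]; ring
      rw [this, hk, pow_add, pow_succ]; ring
    have hnd : ¬ (5 : ℤ) ∣ 5 * (5 ^ k * p) + 729 * q := by
      intro h
      have h' : (5 : ℤ) ∣ 729 * q := (Int.dvd_add_right ⟨5 ^ k * p, rfl⟩).mp h
      rcases hprime.dvd_or_dvd h' with h'' | h''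
      · revert h''; decide
      · exact hy h''
    rw [hL, hRHS] at heq
    obtain ⟨_, hAB⟩ := unique_aux heq hnd hR
    have hmod := congrArg (Int.cast : ℤ → ZMod 5) hAB
    push_cast at hmod
    rw [h1u, h2u, h3u] at hmod
    have hp : (p : ZMod 5) ≠ 0 := by
      rw [Ne, ZMod.intCast_zmod_eq_zero_iff_dvd]
      exact_mod_cast hx
    rw [pow_twelve _ hp] at hmod
    have h5 : (5 : ZMod 5) = 0 := by decide
    have h729 : (729 : ZMod 5) = 4 := by decide
    rw [h5, h729] at hmod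
    generalize (p : ZMod 5) = t at hmod hp
    rw [zero_mul, zero_add, mul_one] at hmod
    revert hp hmod
    revert t
    decide
  · have h4 : ((b : ℕ) : ZMod 12) = (a : ZMod 12) + 4 := by rw [heq']; push_cast; ring
    rw [h1v] at h4
    have : (4 : ZMod 12) = 0 := by
      have := h4
      rw [eq_comm, add_eq_left] at this
      exact this
    revert this; decide
  · obtain ⟨k, hk⟩ : ∃ k, b = a + 4 + (k + 1) := ⟨b - (a + 4) - 1, by omega⟩
    have hL : (5 : ℤ) ^ 4 * (5 ^ a * p) + 3 ^ 6 * (5 ^ b * q) =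
        5 ^ (a + 4) * (p + 5 * (729 * 5 ^ k * q)) := by
      rw [hk, pow_add, pow_add, pow_succ]; ring
    have hnd : ¬ (5 : ℤ) ∣ p + 5 * (729 * 5 ^ k * q) := by
      intro h
      exact hx ((Int.dvd_add_left ⟨729 * 5 ^ k * q, rfl⟩).mp h)
    rw [hL, hRHS] at heq
    obtain ⟨hv, _⟩ := unique_aux heq hnd hR
    have hmod := congrArg (Nat.cast : ℕ → ZMod 12) hv
    push_cast at hmod
    rw [h2v] at hmod
    have h0 : (12 : ZMod 12) = 0 := by decide
    rw [h0, zero_mul, add_zero, add_eq_left] at hmod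
    revert hmod; decide

/-- **The system is not partition regular** (Q1, negated form); in fact its first equation alone
has no monochromatic solution for a suitable colouring with 60 colours. -/
theorem result :
    ¬ SystemPartitionRegular ∧
    ∃ c : NZ → Fin 60, ∀ x y w z : NZ, c y = c x → c w = c x → c z = c x →
      (5 : ℤ) ^ 4 * x.1 + 3 ^ 6 * y.1 ≠ w.1 * z.1 ^ 12 := by
  have hcard : Fintype.card (ZMod 12 × ZMod 5) = 60 := by
    rw [Fintype.card_prod, ZMod.card, ZMod.card]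
  have e : ZMod 12 × ZMod 5 ≃ Fin 60 := Fintype.equivFinOfCardEq hcard
  have key : ∃ c : NZ → Fin 60, ∀ x y w z : NZ, c y = c x → c w = c x → c z = c x →
      (5 : ℤ) ^ 4 * x.1 + 3 ^ 6 * y.1 ≠ w.1 * z.1 ^ 12 :=
    ⟨fun n => e (col n), fun x y w z h1 h2 h3 =>
      no_sol x y w z (e.injective h1) (e.injective h2) (e.injective h3)⟩
  refine ⟨?_, key⟩
  intro hPR
  obtain ⟨c, hc⟩ := key
  obtain ⟨x₁, y₁, w₁, z₁, x₂, y₂, w₂, z₂, ⟨h1, h2, h3, -⟩, heq, -⟩ := hPR 60 c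
  exact hc x₁ y₁ w₁ z₁ h1 h2 h3 heq

end Pool.Agent.Results.MP_900fba_co.NotRegular
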